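import Pool.Agent.TH930.GH.Cyc

set_option autoImplicit false

/-!
Generalised Collatz maps of coprime type with `∏ |m_i / d| > 1`: the number of cycles contained in
`[-X, X]`.
-/

namespace Pool.Agent.Results.MP_39d40e_nt.ExpandingCycles

open Finset

/-- The generalised Collatz map `T(x) = (m_i x - r_i) / d` for `x ≡ i mod d`, `0 ≤ i < d`. -/
def T (d : ℕ) (m r : ℕ → ℤ) (x : ℤ) : ℤ := (m (x % d).toNat * x - r (x % d).toNat) / d

/-- the cycles of a map on the integers, as finite sets: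
`{x, f x, ..., f^(p-1) x}` with `p ≥ 1` and `f^p x = x` -/
def IsCycle (f : ℤ → ℤ) (c : Finset ℤ) : Prop :=
  ∃ x : ℤ, ∃ p : ℕ, 1 ≤ p ∧ f^[p] x = x ∧ c = (range p).image (fun j => f^[j] x)

/-- Let `gcd(m_i, d) = 1` for all `i`, `Λ = ∏ |m_i / d| ^ (1 / d) > 1` and some `|m_i| < d`. There is
`0 < η < 1`, depending only on `d` and the `m_i`, which is smaller than `log_d (∑ |m_i / d| ^ s)` for every
real `s ≤ 0`, such that for all admissible `r_i` there is `C` with: for all `X ≥ 1` at most `C X ^ η`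
cycles are contained in `[-X, X]`. -/
theorem result (d : ℕ) (hd : 2 ≤ d) (m : ℕ → ℤ) (hm : ∀ i < d, IsCoprime (m i) (d : ℤ))
    (hL : 1 < ∏ i ∈ range d, |(m i : ℝ) / d|) (hb : ∃ i < d, |m i| < (d : ℤ)) :
    ∃ η : ℝ, 0 < η ∧ η < 1 ∧
      (∀ s : ℝ, s ≤ 0 → η < Real.log (∑ i ∈ range d, |(m i : ℝ) / d| ^ s) / Real.log d) ∧
      ∀ r : ℕ → ℤ, (∀ i < d, r i ≡ i * m i [ZMOD d]) → ∃ C : ℝ, 0 < C ∧ ∀ X : ℝ, 1 ≤ X →
        ({c : Finset ℤ | IsCycle (T d m r) c ∧ ∀ x ∈ c, |(x : ℝ)| ≤ X}.ncard : ℝ) ≤ C * X ^ η :=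
  Pool.Agent.TH930.GH.expanding hd hm hL hb

end Pool.Agent.Results.MP_39d40e_nt.ExpandingCycles
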