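import Pool.Agent.TH930.GH.GrowM

set_option autoImplicit false

/-!
Generalised Collatz maps of coprime type with `Λ > 1`: almost all trajectories grow beyond the exponent
that is visible in the range of free residue vectors.
-/

namespace Pool.Agent.Results.MP_39d40e_nt.GrowthBeyond

open Finset

/-- The generalised Collatz map `T(x) = (m_i x - r_i) / d` for `x ≡ i mod d`, `0 ≤ i < d`. -/
def T (d : ℕ) (m r : ℕ → ℤ) (x : ℤ) : ℤ := (m (x % d).toNat * x - r (x % d).toNat) / d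

/-- Let `gcd(m_i, d) = 1` for all `i` and `Λ = ∏ |m_i / d| ^ (1 / d) > 1`. There are `θ > 1 + log_d Λ` and
`0 < κ < 1`, depending only on `d` and the `m_i`, such that for all admissible `r_i` there is `C` with: for
all `X ≥ 1`, all but at most `C X ^ (1 - κ)` of the integers `x` with `|x| ≤ X` have a trajectory that
contains a term larger than `|x| ^ θ` in absolute value. -/
theorem result (d : ℕ) (hd : 2 ≤ d) (m : ℕ → ℤ) (hm : ∀ i < d, IsCoprime (m i) (d : ℤ))
    (hL : 1 < ∏ i ∈ range d, |(m i : ℝ) / d|) :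
    ∃ θ κ : ℝ, 1 + Real.logb d ((∏ i ∈ range d, |(m i : ℝ) / d|) ^ (1 / (d : ℝ))) < θ ∧
      0 < κ ∧ κ < 1 ∧
      ∀ r : ℕ → ℤ, (∀ i < d, r i ≡ i * m i [ZMOD d]) → ∃ C : ℝ, 0 < C ∧ ∀ X : ℝ, 1 ≤ X →
        (Set.ncard {x : ℤ | |(x : ℝ)| ≤ X ∧
          ¬ ∃ k : ℕ, |(x : ℝ)| ^ θ < |(((T d m r)^[k] x : ℤ) : ℝ)|} : ℝ) ≤ C * X ^ (1 - κ) := by
  have hd0 : (0 : ℝ) < d := by exact_mod_cast (by omega : 0 < d)
  have hadm : ∀ r : ℕ → ℤ, (∀ i < d, r i ≡ i * m i [ZMOD d]) → Pool.Agent.TH930.GH.Cop d m r := by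
    intro r hr
    refine ⟨hd, hm, fun i hi => ?_⟩
    have h1 := (hr i hi).dvd
    rwa [mul_comm (i : ℤ)] at h1
  have hC := hadm (fun i => i * m i) (fun i _ => Int.ModEq.refl _)
  have hpos : ∀ i ∈ range d, |(m i : ℝ) / d| ≠ 0 := by
    intro i hi
    rw [abs_div, abs_of_pos hd0]
    exact (div_pos (hC.abs_pos (mem_range.1 hi)) hd0).ne'
  have hls : Pool.Agent.TH930.GH.lsum d m = Real.log (∏ i ∈ range d, |(m i : ℝ) / d|) := by
    unfold Pool.Agent.TH930.GH.lsum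
    rw [Real.log_prod hpos]
    apply sum_congr rfl
    intro i _
    rw [abs_div, abs_of_pos hd0]
  have hbig : ∃ i < d, 2 ≤ |m i| := by
    by_contra hcon
    push Not at hcon
    have h1 : ∏ i ∈ range d, |(m i : ℝ) / d| ≤ 1 := by
      apply prod_le_one (fun i _ => abs_nonneg _)
      intro i hi
      rw [mem_range] at hi
      have h2 := hcon i hi
      have h3 : |(m i : ℝ)| ≤ 1 := by
        have h4 : |m i| ≤ 1 := by omega
        exact_mod_cast h4
      rw [abs_div, abs_of_pos hd0, div_le_one hd0]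
      have : (2 : ℝ) ≤ d := by exact_mod_cast hd
      linarith
    linarith
  obtain ⟨θ, κ, hθ, hκ0, hκ1, h⟩ := Pool.Agent.TH930.GH.growth hC hbig (by
    rw [hls]; exact Real.log_pos hL)
  refine ⟨θ, κ, ?_, hκ0, hκ1, fun r hr => ?_⟩
  · have e : Real.logb d ((∏ i ∈ range d, |(m i : ℝ) / d|) ^ (1 / (d : ℝ))) =
        Pool.Agent.TH930.GH.lsum d m / d / Real.log d := by
      rw [hls, Real.logb, Real.log_rpow (by linarith)]
      ring
    rw [e]
    exact hθ
  · obtain ⟨C, hC0, hb⟩ := h r (hadm r hr)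
    refine ⟨C, hC0, fun X hX => ?_⟩
    have hfin : {x : ℤ | |(x : ℝ)| ≤ X ∧
        ¬ ∃ k : ℕ, |(x : ℝ)| ^ θ < |(((T d m r)^[k] x : ℤ) : ℝ)|}.Finite := by
      apply (Set.finite_Icc (-⌈X⌉) ⌈X⌉).subset
      rintro x ⟨hx, -⟩
      have h1 := abs_le.1 hx
      have h2 := Int.le_ceil X
      rw [Set.mem_Icc]
      constructor
      · have : (-(⌈X⌉ : ℤ) : ℝ) ≤ x := by linarith
        exact_mod_cast this
      · have : (x : ℝ) ≤ (⌈X⌉ : ℤ) := by linarith
        exact_mod_cast this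
    rw [Set.ncard_eq_toFinset_card _ hfin]
    apply hb X hX
    intro x hx
    rw [Set.Finite.mem_toFinset] at hx
    refine ⟨hx.1, fun k => ?_⟩
    by_contra hcon
    exact hx.2 ⟨k, not_le.1 hcon⟩

end Pool.Agent.Results.MP_39d40e_nt.GrowthBeyond
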