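import Pool.Agent.TH930.GH.Leigh

set_option autoImplicit false

/-!
Generalised Collatz maps of coprime type with `∏ |m_i / d| < 1`: power saving in the almost all theorem,
beyond the optimal exponent of Chebyshev's inequality.
-/

namespace Pool.Agent.Results.MP_39d40e_nt.PowerRate

open Finset

/-- The generalised Collatz map `T(x) = (m_i x - r_i) / d` for `x ≡ i mod d`, `0 ≤ i < d`. -/
def T (d : ℕ) (m r : ℕ → ℤ) (x : ℤ) : ℤ := (m (x % d).toNat * x - r (x % d).toNat) / d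

/-- Let `gcd(m_i, d) = 1` for all `i`, `Λ = ∏ |m_i / d| ^ (1 / d) < 1` and some `|m_i| > d`. There is
`c > 0`, depending only on `d` and the `m_i`, which is larger than
`1 - log_d (∑ |m_i / d| ^ s)` for every real `s ≥ 0`, such that for all admissible `r_i` there is `C` with:
for all `X, y ≥ 1` at most `C X / y ^ c` of the integers `x` with `|x| ≤ X` have a trajectory that never
enters `[-y, y]`. -/
theorem result (d : ℕ) (hd : 2 ≤ d) (m : ℕ → ℤ) (hm : ∀ i < d, IsCoprime (m i) (d : ℤ))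
    (hL : ∏ i ∈ range d, |(m i : ℝ) / d| < 1) (hb : ∃ i < d, (d : ℤ) < |m i|) :
    ∃ c : ℝ, 0 < c ∧
      (∀ s : ℝ, 0 ≤ s → 1 - Real.log (∑ i ∈ range d, |(m i : ℝ) / d| ^ s) / Real.log d < c) ∧
      ∀ r : ℕ → ℤ, (∀ i < d, r i ≡ i * m i [ZMOD d]) → ∃ C : ℝ, 0 < C ∧ ∀ X y : ℝ, 1 ≤ X → 1 ≤ y →
      (Set.ncard {x : ℤ | |(x : ℝ)| ≤ X ∧ ∀ n : ℕ, y < |(((T d m r)^[n] x : ℤ) : ℝ)|} : ℝ) ≤
        C * X / y ^ c := by
  have h0 : Pool.Agent.H319R3.GC.Adm d m (fun i => i * m i) :=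
    Pool.Agent.TH930.GH.Adm_of hd hm (fun i _ => Int.ModEq.refl _) hL hb
  obtain ⟨c, hc0, hc, h⟩ := Pool.Agent.TH930.GH.power_opt h0 hb
  exact ⟨c, hc0, hc, fun r hr => h r (Pool.Agent.TH930.GH.Adm_of hd hm hr hL hb)⟩

end Pool.Agent.Results.MP_39d40e_nt.PowerRate
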