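import Pool.Agent.TH930.GH.Leigh

set_option autoImplicit false

/-!
Generalised Collatz maps of coprime type with `∏ |m_i / d| < 1`: the number of trajectories that have
nothing in common.
-/

namespace Pool.Agent.Results.MP_39d40e_nt.UnrelatedTrajectories

open Finset

/-- The generalised Collatz map `T(x) = (m_i x - r_i) / d` for `x ≡ i mod d`, `0 ≤ i < d`. -/
def T (d : ℕ) (m r : ℕ → ℤ) (x : ℤ) : ℤ := (m (x % d).toNat * x - r (x % d).toNat) / d

/-- Let `gcd(m_i, d) = 1` for all `i`, `Λ = ∏ |m_i / d| ^ (1 / d) < 1` and some `|m_i| > d`. There is `η > 0`,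
depending only on `d` and the `m_i`, which is smaller than `log_d (∑ |m_i / d| ^ s)` for every real
`s ≥ 0`, such that for all admissible `r_i` there is `C` with: for all `X ≥ 1` a set of integers of
`[-X, X]` whose trajectories are pairwise disjoint has at most `C X ^ η` elements. In particular at most
`C X ^ η` cycles meet `[-X, X]`. -/
theorem result (d : ℕ) (hd : 2 ≤ d) (m : ℕ → ℤ) (hm : ∀ i < d, IsCoprime (m i) (d : ℤ))
    (hL : ∏ i ∈ range d, |(m i : ℝ) / d| < 1) (hb : ∃ i < d, (d : ℤ) < |m i|) :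
    ∃ η : ℝ, 0 < η ∧
      (∀ s : ℝ, 0 ≤ s → η < Real.log (∑ i ∈ range d, |(m i : ℝ) / d| ^ s) / Real.log d) ∧
      ∀ r : ℕ → ℤ, (∀ i < d, r i ≡ i * m i [ZMOD d]) → ∃ C : ℝ, 0 < C ∧ ∀ X : ℝ, 1 ≤ X →
      ∀ F : Finset ℤ, (∀ x ∈ F, |(x : ℝ)| ≤ X) →
        (∀ x ∈ F, ∀ y ∈ F, x ≠ y → ∀ a b : ℕ, (T d m r)^[a] x ≠ (T d m r)^[b] y) →
        (F.card : ℝ) ≤ C * X ^ η := by
  have h0 : Pool.Agent.H319R3.GC.Adm d m (fun i => i * m i) :=
    Pool.Agent.TH930.GH.Adm_of hd hm (fun i _ => Int.ModEq.refl _) hL hb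
  obtain ⟨η, hη0, hη, h⟩ := Pool.Agent.TH930.GH.least_opt h0 hb
  refine ⟨η, hη0, hη, fun r hr => ?_⟩
  obtain ⟨C, hC, hb⟩ := h r (Pool.Agent.TH930.GH.Adm_of hd hm hr hL hb)
  refine ⟨C, hC, fun X hX F hF hne => ?_⟩
  exact Pool.Agent.TH930.GH.unrelated (T := T d m r) (hb X hX) F hF hne

end Pool.Agent.Results.MP_39d40e_nt.UnrelatedTrajectories
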